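import Pool.Agent.Helper865.Kne.Final

set_option autoImplicit false

namespace Pool.Agent.Results.MP_d46fce_co.Estimates

open Pool.Agent.Helper865.Kne

/-- Estimates for `h_m(n;k,l)`: order of magnitude for `l = 0`, `k ≥ n` and all `m`; order `log m`
for fixed `l` and `k` proportional to `n`; a general upper bound. -/
theorem result :
    (∀ n k m : ℕ, 1 ≤ n → n ≤ k → 1 ≤ m → m ≤ (2 * n + k).choose n →
      F m n k / 2000 ≤ hh m n k 0 ∧ (hh m n k 0 : ℝ) ≤ 2 * F m n k) ∧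
    (∀ (l : ℕ) (ε C : ℝ), 0 < ε → 0 < C → ∃ c₁ c₂ : ℝ, 0 < c₁ ∧ 0 < c₂ ∧
      ∀ n k m : ℕ, l < n → ε * n ≤ k → (k : ℝ) ≤ C * n → 2 ≤ m → m ≤ (2 * n + k).choose n →
      c₁ * Real.log m ≤ hh m n k l ∧ (hh m n k l : ℝ) ≤ c₂ * Real.log m) ∧
    (∀ n k l m : ℕ, l < n →
      (hh m n k l : ℝ) ≤ T n k l * (1 + max 0 (Real.log (m / T n k l))) + 1) :=
  Pool.Agent.Helper865.Kne.estimates

end Pool.Agent.Results.MP_d46fce_co.Estimates
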